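import Pool.Agent.W_7d29a1_59E.Eb
import Pool.Agent.W_7d29a1_SL.SepBad
import Pool.Agent.W_7d29a1_X50.MomX

/-!
MP_7d29a1_pr: the end point of the polymer is spread at the scale `wd μ n`. The typical bounds at one scale.
-/

namespace Pool.Agent.W_7d29a1_59E

open MeasureTheory ProbabilityTheory Filter Topology
open Pool.Agent.W_7d29a1_F Pool.Agent.W_7d29a1_G Pool.Agent.W_7d29a1_L Pool.Agent.W_7d29a1_h95g Pool.Agent.W_7d29a1_SR
open Pool.Agent.W_7d29a1_SL

noncomputable section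

/-- The tilted weight of length `k` from `a`. -/
def TT (μ : Measure ℝ) (th : ℝ) (η : Env) (a : Pt) (k : ℕ) : ℝ :=
  ∑ y ∈ Finset.Icc (0 : ℤ) k, W μ 0 η a k y * Real.exp (th * ((y : ℝ) - 1 / 2 * k))

variable {μ : Measure ℝ} {c C : ℝ} {n₀ : ℕ}

theorem TT_eq (th : ℝ) (η : Env) (a : Pt) (k : ℕ) : TT μ th η a k = Real.exp (T μ 0 (1 / 2) th η a k) :=
  (exp_T (μ := μ) (s := 0) (v := 1 / 2) (h := th) η a k).symm

theorem measurable_TT (th : ℝ) (a : Pt) (k : ℕ) : Measurable fun η : Env => TT μ th η a k :=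
  Finset.measurable_sum _ fun y _ => (measurable_W a k y).mul_const _

theorem TT_sh (th : ℝ) (η : Env) (a : Pt) (k : ℕ) : TT μ th (sh a η) 0 k = TT μ th η a k := by
  unfold TT
  refine Finset.sum_congr rfl fun y _ => ?_
  have h1 := WR_sh (μ := μ) (s := 0) Set.univ η 0 a k y
  rw [zero_add] at h1
  have h2 : {p : Pt | p + a ∈ (Set.univ : Set Pt)} = Set.univ := Set.eq_univ_of_forall fun _ => trivial
  rw [h2] at h1
  unfold W
  rw [h1]

variable [IsProbabilityMeasure μ]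

/-- The tilted weights of the scale `r` are not large. -/
theorem TT_bd (h : In μ c C n₀) {ε : ℝ} (hε : 0 < ε) : ∃ b : ℝ, 1 ≤ b ∧ ∃ n₁ : ℕ, ∀ r : ℕ, n₁ ≤ r → ∀ k : ℕ, k ≤ 4 * r →
    ∀ th : ℝ, |th| * wd μ r ≤ c * EE μ r → ∀ a : Pt,
      (law μ).real {η | Real.exp (b * EE μ r) < TT μ th η a k} ≤ ε := by
  have hc0 := h.c0
  have hC1 := h.C1
  have hC0 : 0 < C := lt_of_lt_of_le one_pos hC1
  obtain ⟨n₂, hw⟩ := (tendsto_atTop.1 (wd_tendsto h) 1).exists_forall_of_atTop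
  obtain ⟨b, hb⟩ : ∃ b : ℝ, b = 1 + C * Real.log (C / ε + 1) := ⟨_, rfl⟩
  have hx1 : (1 : ℝ) ≤ C / ε + 1 := by
    have : 0 ≤ C / ε := by positivity
    linarith
  have hb1 : 1 ≤ b := by
    rw [hb]
    have : 0 ≤ Real.log (C / ε + 1) := Real.log_nonneg hx1
    nlinarith
  refine ⟨b, hb1, max n₀ n₂, fun r hr k hk th hth a => ?_⟩
  have hw1 := hw r ((le_max_right _ _).trans hr)
  have hw0 : 0 < wd μ r := by linarith
  have hE := EE_pos (μ := μ) r
  have hms : MeasurableSet {η : Env | Real.exp (b * EE μ r) < TT μ th η 0 k} :=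
    measurableSet_lt measurable_const (measurable_TT th 0 k)
  have hshift : (law μ).real {η | Real.exp (b * EE μ r) < TT μ th η a k} =
      (law μ).real {η | Real.exp (b * EE μ r) < TT μ th η 0 k} := by
    rw [← real_sh (μ := μ) a hms]
    congr 1
    ext η
    simp only [Set.mem_ofPred_eq, TT_sh]
  rw [hshift]
  have hl := h.luck r ((le_max_left _ _).trans hr) th (-(wd μ r / 2)) hth
  obtain ⟨M, hM⟩ : ∃ M : Env → ℝ, M = Mh μ 0 (1 / 2) th (wd μ r) (-(wd μ r / 2)) (4 * r) := ⟨_, rfl⟩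
  have hl' : ∫ η, Real.exp (M η / (C * EE μ r)) ∂(law μ) ≤ C := by rw [hM]; exact hl
  have hmem : (((0 : ℕ), (0 : ℤ)), k) ∈ Bx (1 / 2) (wd μ r) (-(wd μ r / 2)) (4 * r) := by
    rw [mem_Bx (by norm_num) (by norm_num)]
    refine ⟨by simpa using hk, ?_, ?_⟩
    · simp only [Int.cast_zero, Nat.cast_zero, mul_zero, sub_zero]
      linarith
    · simp only [Int.cast_zero, Nat.cast_zero, mul_zero, sub_zero]
      linarith
  have hTM : ∀ η, T μ 0 (1 / 2) th η 0 k ≤ M η := by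
    intro η
    rw [hM]
    have h1 := le_Mh (μ := μ) (s := 0) (h := th) η hmem
    have e : ((((0 : ℕ) : ℤ), (0 : ℤ)) : Pt) = 0 := by
      ext <;> simp
    simp only at h1
    rw [e] at h1
    exact h1
  have hsub : {η | Real.exp (b * EE μ r) < TT μ th η 0 k} ⊆
      {η | Real.exp (b / C) ≤ Real.exp (M η / (C * EE μ r))} := by
    intro η hη
    rw [Set.mem_ofPred_eq] at hη ⊢
    rw [TT_eq, Real.exp_lt_exp] at hη
    rw [Real.exp_le_exp, div_le_div_iff₀ hC0 (by positivity)]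
    have h2 : b * EE μ r ≤ M η := by linarith [hTM η]
    nlinarith
  have hint : Integrable (fun η => Real.exp (M η / (C * EE μ r))) (law μ) := by
    have h1 : Sub M := by rw [hM]; exact Sub_Mh
    have h2 := (h1.const_mul (1 / (C * EE μ r))).exp_int h.em
    refine h2.congr (Eventually.of_forall fun η => ?_)
    simp only
    congr 1
    ring
  have h3 := mul_meas_ge_le_integral_of_nonneg (μ := law μ) (f := fun η => Real.exp (M η / (C * EE μ r)))
    (ae_of_all _ fun η => (Real.exp_pos _).le) hint (Real.exp (b / C))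
  have h4 : Real.exp (b / C) * (law μ).real {η | Real.exp (b / C) ≤ Real.exp (M η / (C * EE μ r))} ≤ C := by
    refine le_trans ?_ hl'
    simpa [Measure.real] using h3
  have h5 : C / ε + 1 ≤ Real.exp (b / C) := by
    rw [← Real.log_le_iff_le_exp (by linarith), le_div_iff₀ hC0, hb]
    linarith
  have h6 : (law μ).real {η | Real.exp (b / C) ≤ Real.exp (M η / (C * EE μ r))} ≤ ε := by
    have h7 : 0 ≤ (law μ).real {η | Real.exp (b / C) ≤ Real.exp (M η / (C * EE μ r))} := measureReal_nonneg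
    have h8 : (C / ε) * (law μ).real {η | Real.exp (b / C) ≤ Real.exp (M η / (C * EE μ r))} ≤ C := by
      refine le_trans (mul_le_mul_of_nonneg_right ?_ h7) h4
      linarith
    rw [div_mul_eq_mul_div, div_le_iff₀ hε] at h8
    nlinarith
  exact (measureReal_mono hsub (measure_ne_top _ _)).trans h6

/-- The weights of the far ends. -/
theorem sum_wu_le (th : ℝ) (R : Set Pt) (η : Env) (t x : ℤ) (k : ℕ) (I : Finset ℤ) {τ : ℝ}
    (hI : ∀ y ∈ I, τ ≤ th * ((y : ℝ) - x - 1 / 2 * k)) :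
    ∑ y ∈ I, wu μ R η t x k y ≤ TT μ th η (t, x) k * Real.exp (-τ) := by
  classical
  have h1 : ∑ y ∈ I, wu μ R η t x k y = ∑ y ∈ I.filter (fun y => x ≤ y ∧ y ≤ x + k), wu μ R η t x k y := by
    rw [Finset.sum_filter]
    refine Finset.sum_congr rfl fun y _ => ?_
    split_ifs with h
    · rfl
    · exact wu_off R η h
  have h2 : TT μ th η (t, x) k =
      ∑ y ∈ Finset.Icc x (x + k), W μ 0 η (t, x) k (y - x) * Real.exp (th * ((y : ℝ) - x - 1 / 2 * k)) := by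
    have h3 : Finset.Icc x (x + k) = (Finset.Icc (0 : ℤ) k).map (addRightEmbedding x) := by
      rw [Finset.map_add_right_Icc, zero_add, add_comm]
    rw [h3, Finset.sum_map]
    unfold TT
    refine Finset.sum_congr rfl fun y _ => ?_
    simp only [addRightEmbedding_apply, add_sub_cancel_right]
    push_cast
    congr 3
    ring
  rw [h1, h2, Finset.sum_mul]
  have h4 : ∀ y ∈ I.filter (fun y => x ≤ y ∧ y ≤ x + k), wu μ R η t x k y ≤
      W μ 0 η (t, x) k (y - x) * Real.exp (th * ((y : ℝ) - x - 1 / 2 * k)) * Real.exp (-τ) := by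
    intro y hy
    rw [Finset.mem_filter] at hy
    have h5 : wu μ R η t x k y ≤ W μ 0 η (t, x) k (y - x) := wu_mono (Set.subset_univ R) η t x k y
    have h6 : 0 ≤ W μ 0 η (t, x) k (y - x) := W_nonneg _ _ _ _
    have h7 : (1 : ℝ) ≤ Real.exp (th * ((y : ℝ) - x - 1 / 2 * k)) * Real.exp (-τ) := by
      rw [← Real.exp_add, Real.one_le_exp_iff]
      linarith [hI y hy.1]
    calc _ ≤ W μ 0 η (t, x) k (y - x) * 1 := by rw [mul_one]; exact h5
      _ ≤ W μ 0 η (t, x) k (y - x) * (Real.exp (th * ((y : ℝ) - x - 1 / 2 * k)) * Real.exp (-τ)) :=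
          mul_le_mul_of_nonneg_left h7 h6
      _ = _ := by ring
  refine (Finset.sum_le_sum h4).trans ?_
  refine Finset.sum_le_sum_of_subset_of_nonneg (fun y hy => ?_) fun y _ _ =>
    mul_nonneg (mul_nonneg (W_nonneg _ _ _ _) (Real.exp_pos _).le) (Real.exp_pos _).le
  rw [Finset.mem_filter] at hy
  exact Finset.mem_Icc.2 hy.2

/-- Displacements of the order of the width: the price. -/
theorem price_le (h : In μ c C n₀) (hD : Pool.Agent.W_7d29a1_X50.Dj μ) {B : ℝ} (hB : 1 ≤ B) : ∃ K : ℝ, 0 < K ∧ ∃ n₁ : ℕ, 1 ≤ n₁ ∧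
    ∀ r : ℕ, n₁ ≤ r → ∀ z : ℤ, |(z : ℝ) - r / 2| ≤ B * wd μ r →
      0 ≤ z ∧ z ≤ r ∧ r * J μ (((z : ℝ) - r / 2) / r) ≤ K * EE μ r := by
  obtain ⟨K, hK, hJ⟩ := Pool.Agent.W_7d29a1_X50.J_ratio h.em h.nd hD hB
  have hB0 : 0 < B := lt_of_lt_of_le one_pos hB
  obtain ⟨n₂, hn₂⟩ := eventually_atTop.1 (h.tv.eventually_le_const (show (0 : ℝ) < 1 / (4 * B) by positivity))
  refine ⟨K, hK, max n₂ 1, le_max_right _ _, fun r hr z hz => ?_⟩
  have hv := hn₂ r ((le_max_left _ _).trans hr)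
  have hr1 : 1 ≤ r := (le_max_right _ _).trans hr
  have hr0 : (0 : ℝ) < r := by exact_mod_cast hr1
  have hv0 := vA_nonneg (μ := μ) h.em zero_le_one r
  have hBv : B * vA μ 1 r ≤ 1 / 4 := by
    have h1 := mul_le_mul_of_nonneg_left hv hB0.le
    have h2 : B * (1 / (4 * B)) = 1 / 4 := by field_simp
    linarith
  have hw : wd μ r = vA μ 1 r * r := rfl
  have hz1 : |(z : ℝ) - r / 2| ≤ B * vA μ 1 r * r := by
    rw [hw] at hz
    linarith
  have hz2 : |(z : ℝ) - r / 2| ≤ r / 4 := hz1.trans (by nlinarith)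
  rw [abs_le] at hz2
  have h0 : (0 : ℝ) ≤ z := by linarith
  have h1 : (z : ℝ) ≤ r := by linarith
  refine ⟨by exact_mod_cast h0, by exact_mod_cast h1, ?_⟩
  have hvlt : vA μ 1 r < 1 / 2 := by nlinarith
  have h2 := vA_eq' (μ := μ) h.em zero_le_one hvlt
  rw [one_mul] at h2
  have h3 : |((z : ℝ) - r / 2) / r| ≤ B * vA μ 1 r := by
    rw [abs_div, abs_of_pos hr0, div_le_iff₀ hr0]
    exact hz1
  have h4 : J μ (((z : ℝ) - r / 2) / r) ≤ K * J μ (vA μ 1 r) := by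
    rw [← J_abs h.em]
    exact (J_mono' h.em (abs_nonneg _) h3 (by linarith)).trans (hJ _ hv0 (by linarith))
  calc (r : ℝ) * J μ (((z : ℝ) - r / 2) / r) ≤ r * (K * J μ (vA μ 1 r)) := mul_le_mul_of_nonneg_left h4 hr0.le
    _ = K * (r * J μ (vA μ 1 r)) := by ring
    _ = K * EE μ r := by rw [h2]

/-- Displacements of the order of the width: the cost is of the order of the unit. -/
theorem far_bd (h : In μ c C n₀) (hD : Pool.Agent.W_7d29a1_X50.Dj μ) {B : ℝ} (hB : 1 ≤ B) {ε : ℝ} (hε : 0 < ε) :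
    ∃ b : ℝ, 0 < b ∧ ∃ n₁ : ℕ, ∀ r : ℕ, n₁ ≤ r → ∀ z : ℤ, |(z : ℝ) - r / 2| ≤ B * wd μ r →
      0 ≤ z ∧ z ≤ r ∧ ∀ a : Pt, (law μ).real {η | b * EE μ r ≤ X μ 0 η a r z} ≤ ε := by
  obtain ⟨K, hK, n₁, hn₁, hP⟩ := price_le h hD hB
  obtain ⟨C₁, A, a, g, hC₁, hA, ha, hg, hg1, hU⟩ := Pool.Agent.W_7d29a1_X50.unlucky_all h hD
  -- the choice of `u`
  have hlim : Tendsto (fun u : ℝ => A * Real.exp (-(a * u ^ g))) atTop (𝓝 0) := by
    have h1 : Tendsto (fun u : ℝ => a * u ^ g) atTop atTop := (tendsto_rpow_atTop hg).const_mul_atTop ha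
    have h2 := Real.tendsto_exp_neg_atTop_nhds_zero.comp h1
    have h3 := h2.const_mul A
    rw [mul_zero] at h3
    exact h3
  obtain ⟨u, hu0, hu⟩ := ((eventually_ge_atTop (0 : ℝ)).and (hlim.eventually (gt_mem_nhds hε))).exists
  refine ⟨C₁ * (1 + K) + u, by positivity, n₁, fun r hr z hz => ?_⟩
  obtain ⟨h0, h1, h2⟩ := hP r hr z hz
  refine ⟨h0, h1, fun q => ?_⟩
  have hE := EE_pos (μ := μ) r
  have h3 := hU r (hn₁.trans hr) z h0 h1 u hu0
  have h5 : (law μ).real {η | (C₁ * (1 + K) + u) * EE μ r ≤ X μ 0 η q r z} ≤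
      (law μ).real {η | (C₁ * (1 + K) + u) * EE μ r ≤ max (X μ 0 η q r z) 0} :=
    measureReal_mono (fun η hη => by
      rw [Set.mem_ofPred_eq] at hη ⊢
      exact le_max_of_le_left hη) (measure_ne_top _ _)
  rw [Pool.Agent.W_7d29a1_X50.real_X (μ := μ) q r z ((C₁ * (1 + K) + u) * EE μ r)] at h5
  refine h5.trans ((measureReal_mono (fun η hη => ?_) (measure_ne_top _ _)).trans (h3.trans hu.le))
  rw [Set.mem_ofPred_eq] at hη ⊢
  have h6 : 0 < (C₁ * (1 + K) + u) * EE μ r := by positivity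
  have h7 : (C₁ * (1 + K) + u) * EE μ r ≤ X μ 0 η 0 r z := by
    rcases le_max_iff.1 hη with h8 | h8
    · exact h8
    · linarith
  refine le_trans ?_ h7
  have h4 : C₁ * (EE μ r + r * J μ (((z : ℝ) - r / 2) / r)) ≤ C₁ * (EE μ r + K * EE μ r) :=
    mul_le_mul_of_nonneg_left (by linarith) hC₁.le
  linarith

/-- The mean cost of the displacements of the order of the width. -/
theorem far_mean (h : In μ c C n₀) (hD : Pool.Agent.W_7d29a1_X50.Dj μ) {B : ℝ} (hB : 1 ≤ B) :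
    ∃ K : ℝ, 0 < K ∧ ∃ n₁ : ℕ, ∀ r : ℕ, n₁ ≤ r → ∀ z : ℤ, |(z : ℝ) - r / 2| ≤ B * wd μ r →
      0 ≤ z ∧ z ≤ r ∧ ep μ r z ≤ K * EE μ r := by
  obtain ⟨K, hK, n₁, hn₁, hP⟩ := price_le h hD hB
  obtain ⟨C₁, hC₁, hq⟩ := Pool.Agent.W_7d29a1_X50.excess_pow h hD
  obtain ⟨K', hK', hx⟩ := hq 1 le_rfl
  refine ⟨K' + C₁ * (1 + K), by positivity, n₁, fun r hr z hz => ?_⟩
  obtain ⟨h0, h1, h2⟩ := hP r hr z hz
  refine ⟨h0, h1, ?_⟩
  have hE := EE_pos (μ := μ) r
  have h3 := hx r (hn₁.trans hr) z h0 h1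
  obtain ⟨P, hPd⟩ : ∃ P : ℝ, P = C₁ * (EE μ r + r * J μ (((z : ℝ) - r / 2) / r)) := ⟨_, rfl⟩
  have hp := Pool.Agent.W_7d29a1_X50.price_nonneg h.em (hn₁.trans hr) h0 h1
  have hP0 : 0 ≤ P := by rw [hPd]; positivity
  have hP1 : P ≤ C₁ * (1 + K) * EE μ r := by
    rw [hPd]
    have h4 : C₁ * (EE μ r + r * J μ (((z : ℝ) - r / 2) / r)) ≤ C₁ * (EE μ r + K * EE μ r) :=
      mul_le_mul_of_nonneg_left (by linarith) hC₁.le
    linarith
  rw [← hPd] at h3
  have hS : Sub fun η : Env => max (X μ 0 η 0 r z - P) 0 := ((Sub_X _ h0 h1).sub (Sub.const P)).max (Sub.const 0)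
  have hS2 : Sub fun η : Env => max (X μ 0 η 0 r z) 0 := (Sub_X _ h0 h1).max (Sub.const 0)
  have h5 : ep μ r z ≤ ∫ η, (max (X μ 0 η 0 r z - P) 0 + P) ∂(law μ) := by
    unfold ep
    refine integral_mono (hS2.integrable h.em) ((hS.integrable h.em).add (integrable_const _)) fun η => ?_
    refine max_le ?_ ?_
    · have := le_max_left (X μ 0 η 0 r z - P) 0
      linarith
    · have := le_max_right (X μ 0 η 0 r z - P) 0
      positivity
  rw [integral_add (hS.integrable h.em) (integrable_const _), integral_const, probReal_univ, one_smul] at h5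
  simp only [pow_one] at h3
  linarith

end

end Pool.Agent.W_7d29a1_59E
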