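import Pool.Agent.W_7d29a1_59E.Ec
import Pool.Agent.W_7d29a1_SL.LuckSide

/-!
MP_7d29a1_pr: the end point of the polymer is spread at the scale `wd μ n`. The comparison at one scale, summed over the ends,
and the lucky tube.
-/

namespace Pool.Agent.W_7d29a1_59E

open MeasureTheory ProbabilityTheory Filter Topology
open Pool.Agent.W_7d29a1_F Pool.Agent.W_7d29a1_G Pool.Agent.W_7d29a1_L Pool.Agent.W_7d29a1_h95g Pool.Agent.W_7d29a1_SR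
open Pool.Agent.W_7d29a1_SL

noncomputable section

variable {μ : Measure ℝ} [IsProbabilityMeasure μ] {c C : ℝ} {n₀ : ℕ}

/-- The comparison, summed over the ends `y ∈ I`. -/
theorem one_det {l : ℤ → ℤ} (hl' : ∀ t, l (t + 1) ≤ l t + 1) (η : Env) (s z : ℤ) (d0 d1 d2 d3 : ℕ) (hd2 : 1 ≤ d2)
    {t0 t1 t2 : ℤ} (ht0 : t0 = s + d0) (ht1 : t1 = t0 + d1) (ht2 : t2 = t1 + d2) {x0 x1 x2 xT ym y2 : ℤ} (I : Finset ℤ)
    (hI : ∀ y ∈ I, ym ≤ y ∧ y ≤ y2) (hx2 : x2 ≤ l t2 + 1) (hxT : l t1 + 1 ≤ xT) {α q ζ Λ : ℝ} (hq : 0 < q) (hζ : 0 < ζ)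
    (hΛ : 0 < Λ)
    (ha2 : ∑ y ∈ I, wu μ Set.univ η t2 x2 d3 y ≤ α)
    (ha1 : ∑ y ∈ I, wu μ (Rq l t1 t2) η t1 x1 (d2 + d3) y ≤ α)
    (ha0 : ∑ y ∈ I, wu μ (Rq l t1 t2) η t0 x0 (d1 + (d2 + d3)) y ≤ α)
    (hq2 : q ≤ wu μ Set.univ η t2 x2 d3 y2) (hP : q ≤ wu μ (Lw l) η t1 x1 d2 x2)
    (hqm : q ≤ wu μ (Rq l t1 t2) η t0 x0 (d1 + (d2 + d3)) ym) (hz : ζ ≤ wu μ Set.univ η t0 x0 d1 xT)
    (hV : Λ ≤ Real.exp (V μ 0 η (t1, xT) (d2 + d3))) :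
    ∑ y ∈ I, wu μ Set.univ η s z (d0 + d1 + d2 + d3) y ≤
      Real.exp (V μ 0 η (s, z) (d0 + d1 + d2 + d3)) * (2 * (α / q) + d2 * (α / (q * q)) + α / (ζ * Λ)) := by
  have hα : 0 ≤ α := le_trans (Finset.sum_nonneg fun y _ => wu_nonneg _ _ _ _ _ _) ha2
  obtain ⟨N, hN⟩ : ∃ N : ℝ, N = Real.exp (V μ 0 η (s, z) (d0 + d1 + d2 + d3)) := ⟨_, rfl⟩
  have hN0 : 0 < N := by rw [hN]; exact Real.exp_pos _
  obtain ⟨WT, hWT⟩ : ∃ WT : ℝ, WT = wu μ Set.univ η s z (d0 + d1) xT := ⟨_, rfl⟩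
  have hWT0 : 0 ≤ WT := by rw [hWT]; exact wu_nonneg _ _ _ _ _ _
  have hV2 : q ≤ Real.exp (V μ 0 η (t2, x2) d3) := hq2.trans (wu_le_V _ _ _ _ _ _)
  have e1 : s + ((d0 + d1 : ℕ) : ℤ) = t1 := by rw [ht1, ht0]; push_cast; ring
  have hWV : WT * Λ ≤ N := by
    have h1 := wu_mul_V (μ := μ) η s z (d0 + d1) (d2 + d3) xT
    rw [e1, ← hWT] at h1
    have e2 : d0 + d1 + (d2 + d3) = d0 + d1 + d2 + d3 := by ring
    rw [e2, ← hN] at h1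
    exact (mul_le_mul_of_nonneg_left hV hWT0).trans h1
  have h1 : ∀ y ∈ I, wu μ Set.univ η s z (d0 + d1 + d2 + d3) y ≤
      N * (wu μ Set.univ η t2 x2 d3 y / q + d2 * (wu μ (Rq l t1 t2) η t1 x1 (d2 + d3) y / (q * q)) +
        wu μ (Rq l t1 t2) η t0 x0 (d1 + (d2 + d3)) y / q) +
      N / Λ * (wu μ (Rq l t1 t2) η t0 x0 (d1 + (d2 + d3)) y / ζ) := by
    intro y hy
    have h2 := end_det (μ := μ) hl' η s z d0 d1 d2 d3 hd2 ht0 ht1 ht2 (x0 := x0) (x1 := x1) (hI y hy).1 (hI y hy).2 hx2 hxT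
      (hq.trans_le hq2) (hq.trans_le hP) (hq.trans_le hqm) (hζ.trans_le hz)
    rw [← hN, ← hWT] at h2
    refine h2.trans (add_le_add (mul_le_mul_of_nonneg_left ?_ hN0.le) ?_)
    · refine add_le_add (add_le_add ?_ (mul_le_mul_of_nonneg_left ?_ (Nat.cast_nonneg _))) ?_
      · exact div_le_div_of_nonneg_left (wu_nonneg _ _ _ _ _ _) hq hq2
      · exact div_le_div_of_nonneg_left (wu_nonneg _ _ _ _ _ _) (by positivity)
          (mul_le_mul hP hV2 hq.le (hq.le.trans hP))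
      · exact div_le_div_of_nonneg_left (wu_nonneg _ _ _ _ _ _) hq hqm
    · refine mul_le_mul ?_ (div_le_div_of_nonneg_left (wu_nonneg _ _ _ _ _ _) hζ hz)
        (div_nonneg (wu_nonneg _ _ _ _ _ _) (hζ.le.trans hz)) (by positivity)
      rw [le_div_iff₀ hΛ]
      exact hWV
  refine (Finset.sum_le_sum h1).trans ?_
  rw [← hN, Finset.sum_add_distrib, ← Finset.mul_sum, ← Finset.mul_sum, Finset.sum_add_distrib, Finset.sum_add_distrib,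
    ← Finset.mul_sum, ← Finset.sum_div, ← Finset.sum_div, ← Finset.sum_div, ← Finset.sum_div]
  have h3 : (∑ y ∈ I, wu μ Set.univ η t2 x2 d3 y) / q ≤ α / q := div_le_div_of_nonneg_right ha2 hq.le
  have h4 : (∑ y ∈ I, wu μ (Rq l t1 t2) η t1 x1 (d2 + d3) y) / (q * q) ≤ α / (q * q) :=
    div_le_div_of_nonneg_right ha1 (by positivity)
  have h5 : (∑ y ∈ I, wu μ (Rq l t1 t2) η t0 x0 (d1 + (d2 + d3)) y) / q ≤ α / q := div_le_div_of_nonneg_right ha0 hq.le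
  have h6 : (∑ y ∈ I, wu μ (Rq l t1 t2) η t0 x0 (d1 + (d2 + d3)) y) / ζ ≤ α / ζ := div_le_div_of_nonneg_right ha0 hζ.le
  have h7 := mul_le_mul_of_nonneg_left h4 (Nat.cast_nonneg (α := ℝ) d2)
  have h8 := mul_le_mul_of_nonneg_left (add_le_add (add_le_add h3 h7) h5) hN0.le
  have h9 := mul_le_mul_of_nonneg_left h6 (div_pos hN0 hΛ).le
  have e3 : N / Λ * (α / ζ) = N * (α / (ζ * Λ)) := by field_simp
  rw [e3] at h9
  linarith

/-- The luck of the tube is used by the polymer. -/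
theorem luck_use {r : ℝ} (hr : 0 ≤ r) (η : Env) (a : Pt) (l t : ℕ) (z : ℤ)
    (hend : ∀ y : ℤ, 0 ≤ y → y ≤ l → |2 * (y : ℝ) - l| ≤ 2 * r → 0 ≤ z - y ∧ z - y ≤ t)
    (hcf : 0 < cS μ (St r a) η a l) :
    Real.log (cS μ (St r a) η a l) - CQ μ (St r a) η a l t z ≤ V μ 0 η a (l + t) := by
  have e0 : ((a.1 + ((0 : ℕ) : ℤ), a.2 + (0 : ℤ)) : Pt) = a := by
    ext <;> simp
  have h1 := luck_det (μ := μ) (S := St r a) hr η a (t₁ := 0) (y₁ := 0) le_rfl le_rfl (by rw [e0]) l t 0 z hend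
    (by rw [e0]; exact hcf)
  rw [e0] at h1
  rw [V_zero] at h1
  have h2 : X μ 0 η a 0 0 = 0 := by
    unfold X W
    rw [WR_zero']
    show -Real.log (Real.exp (-(((0 : ℕ) : ℝ) * lam μ 0)) * (if (0 : ℤ) = 0 then 1 else 0)) = 0
    simp
  rw [h2] at h1
  have e1 : 0 + (l + (t + 0)) = l + t := by ring
  rw [e1] at h1
  linarith

end

end Pool.Agent.W_7d29a1_59E
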