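import Pool.Agent.W_7d29a1_59E.Ed

/-!
MP_7d29a1_pr: the end point of the polymer is spread at the scale `wd μ n`. The geometry of one scale (duration `2 g`), the
typical event and its probability.
-/

namespace Pool.Agent.W_7d29a1_59E

open MeasureTheory ProbabilityTheory Filter Topology
open Pool.Agent.W_7d29a1_F Pool.Agent.W_7d29a1_G Pool.Agent.W_7d29a1_L Pool.Agent.W_7d29a1_h95g Pool.Agent.W_7d29a1_SR
open Pool.Agent.W_7d29a1_SL

noncomputable section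

/-- The line of the scale `g`: slope `1 / 2`, in the row `n - 4 g` at `y0 - 2 g + D + F`. -/
def ln (n g : ℕ) (y0 D F : ℤ) (t : ℤ) : ℤ := y0 - 2 * g + D + F + (t - (n - 4 * g)) / 2

/-- The region of the avoiding paths. -/
def Qg (n g : ℕ) (y0 D F : ℤ) : Set Pt := Rq (ln n g y0 D F) ((n : ℤ) - 4 * g) ((n : ℤ) - 2 * g)

theorem ln_lip (n g : ℕ) (y0 D F : ℤ) (t : ℤ) : ln n g y0 D F (t + 1) ≤ ln n g y0 D F t + 1 := by
  unfold ln
  omega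

variable {μ : Measure ℝ} {c C : ℝ} {n₀ : ℕ}

theorem wu_dep (R : Set Pt) (t x : ℤ) (k : ℕ) (y : ℤ) {K : Set Pt}
    (hK : ∀ p ∈ R, t < p.1 → p.1 ≤ t + k → p ∈ K) {η η' : Env} (h : ∀ p ∈ K, η p = η' p) :
    wu μ R η t x k y = wu μ R η' t x k y := by
  unfold wu
  exact WR_dep (μ := μ) (s := 0) R (t, x) k (y - x) fun p hp => h p (hK p hp.2 hp.1.1 hp.1.2.1)

theorem measurable_wu (R : Set Pt) (t x : ℤ) (k : ℕ) (y : ℤ) : Measurable fun η : Env => wu μ R η t x k y :=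
  measurable_WR' R (t, x) k (y - x)

/-- The typical event of the scale `g`. -/
def Ty (μ : Measure ℝ) (n g : ℕ) (y0 D F G : ℤ) (I : Finset ℤ) (α q ζ : ℝ) : Set Env :=
  {η | (∑ y ∈ I, wu μ Set.univ η ((n : ℤ) - 2 * g) (y0 - g + D) (2 * g) y ≤ α ∧
      ∑ y ∈ I, wu μ (Qg n g y0 D F) η ((n : ℤ) - 4 * g) (y0 - 2 * g + D) (2 * g + 2 * g) y ≤ α ∧
      ∑ y ∈ I, wu μ (Qg n g y0 D F) η ((n : ℤ) - 6 * g) (y0 - 3 * g - D) (2 * g + (2 * g + 2 * g)) y ≤ α) ∧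
    (q ≤ wu μ Set.univ η ((n : ℤ) - 2 * g) (y0 - g + D) (2 * g) (y0 + D) ∧
      q ≤ wu μ (Lw (ln n g y0 D F)) η ((n : ℤ) - 4 * g) (y0 - 2 * g + D) (2 * g) (y0 - g + D) ∧
      q ≤ wu μ (Qg n g y0 D F) η ((n : ℤ) - 6 * g) (y0 - 3 * g - D) (2 * g + (2 * g + 2 * g)) (y0 - D) ∧
      ζ ≤ wu μ Set.univ η ((n : ℤ) - 6 * g) (y0 - 3 * g - D) (2 * g) (y0 - 2 * g + D + F + G))}

/-- The start of the tube. -/
def aT (n g : ℕ) (y0 D F G : ℤ) : Pt := ((n : ℤ) - 4 * g, y0 - 2 * g + D + F + G)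

theorem measurable_Ty (n g : ℕ) (y0 D F G : ℤ) (I : Finset ℤ) (α q ζ : ℝ) : MeasurableSet (Ty μ n g y0 D F G I α q ζ) := by
  unfold Ty
  have hs : ∀ (R : Set Pt) (t x : ℤ) (k : ℕ), MeasurableSet {η : Env | ∑ y ∈ I, wu μ R η t x k y ≤ α} := fun R t x k =>
    measurableSet_le (Finset.measurable_sum _ fun y _ => measurable_wu R t x k y) measurable_const
  have hw : ∀ (R : Set Pt) (t x : ℤ) (k : ℕ) (y : ℤ) (q : ℝ), MeasurableSet {η : Env | q ≤ wu μ R η t x k y} :=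
    fun R t x k y q => measurableSet_le measurable_const (measurable_wu R t x k y)
  exact ((hs _ _ _ _).inter ((hs _ _ _ _).inter (hs _ _ _ _))).inter
    ((hw _ _ _ _ _ _).inter ((hw _ _ _ _ _ _).inter ((hw _ _ _ _ _ _).inter (hw _ _ _ _ _ _))))

theorem Ty_dep (n g : ℕ) (y0 D F G : ℤ) (I : Finset ℤ) (α q ζ : ℝ) (η η' : Env)
    (h : ∀ p ∈ Qg n g y0 D F, η p = η' p) :
    η ∈ Ty μ n g y0 D F G I α q ζ ↔ η' ∈ Ty μ n g y0 D F G I α q ζ := by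
  have h1 : ∀ x y : ℤ, wu μ Set.univ η ((n : ℤ) - 2 * g) x (2 * g) y = wu μ Set.univ η' ((n : ℤ) - 2 * g) x (2 * g) y :=
    fun x y => wu_dep _ _ _ _ _ (fun p _ hp _ => Or.inr (Or.inl hp)) h
  have h2 : ∀ (t x : ℤ) (k : ℕ) (y : ℤ), wu μ (Qg n g y0 D F) η t x k y = wu μ (Qg n g y0 D F) η' t x k y :=
    fun t x k y => wu_dep _ _ _ _ _ (fun p hp _ _ => hp) h
  have h3 : ∀ x y : ℤ, wu μ (Lw (ln n g y0 D F)) η ((n : ℤ) - 4 * g) x (2 * g) y =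
      wu μ (Lw (ln n g y0 D F)) η' ((n : ℤ) - 4 * g) x (2 * g) y :=
    fun x y => wu_dep _ _ _ _ _ (fun p hp _ _ => Or.inr (Or.inr hp)) h
  have h4 : ∀ x y : ℤ, wu μ Set.univ η ((n : ℤ) - 6 * g) x (2 * g) y = wu μ Set.univ η' ((n : ℤ) - 6 * g) x (2 * g) y :=
    fun x y => wu_dep _ _ _ _ _ (fun p _ _ hp => Or.inl (by push_cast at hp; omega)) h
  unfold Ty
  simp only [Set.mem_ofPred_eq, h1, h2, h3, h4]

variable [IsProbabilityMeasure μ]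

/-- The lucky event of the tube. -/
def LkS (μ : Measure ℝ) (r : ℝ) (a : Pt) (l : ℕ) (κ : ℝ) : Set Env := {η | κ ≤ Real.log (cS μ (St r a) η a l)}

/-- ONE SCALE, the deterministic part. -/
theorem one_scale {r : ℝ} (hr : 0 ≤ r) {n g : ℕ} (hg : 1 ≤ g) (hn : 6 * g ≤ n) {y0 D F G : ℤ} (hF : 0 ≤ F) (hG : 1 ≤ G)
    (I : Finset ℤ) (hI : ∀ y ∈ I, y0 - D ≤ y ∧ y ≤ y0 + D) {α q ζ κ u : ℝ} (hq : 0 < q) (hζ : 0 < ζ) (hκ : 0 < κ)
    {η : Env} (hT : η ∈ Ty μ n g y0 D F G I α q ζ) (hL : η ∈ LkS μ r (aT n g y0 D F G) (2 * g) κ)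
    (hQ : CQ μ (St r (aT n g y0 D F G)) η (aT n g y0 D F G) (2 * g) (2 * g) ((2 * g : ℕ) : ℤ) ≤ u) :
    ∑ y ∈ I, wu μ Set.univ η 0 0 n y ≤ Real.exp (V μ 0 η (0, 0) n) *
      (2 * (α / q) + (2 * g : ℕ) * (α / (q * q)) + α / (ζ * Real.exp (κ - u))) := by
  obtain ⟨⟨a2, a1, a0⟩, q2, q1, qm, z1⟩ := hT
  obtain ⟨d0, hd0⟩ : ∃ d0 : ℕ, n = d0 + 2 * g + 2 * g + 2 * g := ⟨n - 6 * g, by omega⟩
  have hcS : 0 < cS μ (St r (aT n g y0 D F G)) η (aT n g y0 D F G) (2 * g) := by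
    have h1 : κ ≤ Real.log (cS μ (St r (aT n g y0 D F G)) η (aT n g y0 D F G) (2 * g)) := hL
    by_contra h2
    have h3 := cS_nonneg (μ := μ) (St r (aT n g y0 D F G)) η (aT n g y0 D F G) (2 * g)
    have h4 : cS μ (St r (aT n g y0 D F G)) η (aT n g y0 D F G) (2 * g) = 0 := le_antisymm (not_lt.1 h2) h3
    rw [h4, Real.log_zero] at h1
    linarith
  have hV := luck_use (μ := μ) hr η (aT n g y0 D F G) (2 * g) (2 * g) ((2 * g : ℕ) : ℤ)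
    (fun y h0 h1 _ => ⟨by linarith, by linarith⟩) hcS
  have hL' : κ ≤ Real.log (cS μ (St r (aT n g y0 D F G)) η (aT n g y0 D F G) (2 * g)) := hL
  have hΛ : Real.exp (κ - u) ≤ Real.exp (V μ 0 η ((n : ℤ) - 4 * g, y0 - 2 * g + D + F + G) (2 * g + 2 * g)) := by
    rw [Real.exp_le_exp]
    have h5 : V μ 0 η (aT n g y0 D F G) (2 * g + 2 * g) =
        V μ 0 η ((n : ℤ) - 4 * g, y0 - 2 * g + D + F + G) (2 * g + 2 * g) := rfl
    rw [← h5]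
    linarith
  have hfin := one_det (μ := μ) (l := ln n g y0 D F) (ln_lip n g y0 D F) η 0 0 d0 (2 * g) (2 * g) (2 * g) (by omega)
    (t0 := (n : ℤ) - 6 * g) (t1 := (n : ℤ) - 4 * g) (t2 := (n : ℤ) - 2 * g) (by rw [hd0]; push_cast; ring)
    (by push_cast; ring) (by push_cast; ring) (x0 := y0 - 3 * g - D) (x1 := y0 - 2 * g + D) (x2 := y0 - g + D)
    (xT := y0 - 2 * g + D + F + G) (ym := y0 - D) (y2 := y0 + D) I hI
    (by
      unfold ln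
      omega)
    (by
      unfold ln
      omega)
    hq hζ (Real.exp_pos (κ - u)) a2 a1 a0 q2 q1 qm z1 hΛ
  rw [← hd0] at hfin
  exact hfin

/-- Union bound. -/
private lemma ee_union {Ω : Type*} [MeasurableSpace Ω] {P : Measure Ω} [IsProbabilityMeasure P] {A B : Set Ω} {a b : ℝ}
    (hA : P.real A ≤ a) (hB : P.real B ≤ b) : P.real (A ∪ B) ≤ a + b :=
  (measureReal_union_le A B).trans (add_le_add hA hB)

/-- Vertical paths in a narrow strip. -/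
theorem vert' (h : In μ c C n₀) {ε : ℝ} (hε : 0 < ε) : ∃ R b : ℝ, 0 ≤ R ∧ 0 < b ∧ ∃ n₁ : ℕ, ∀ g : ℕ, n₁ ≤ 2 * g →
    ∀ (m k : ℕ), 1 ≤ m → m ≤ 3 → k = m * (2 * g) → ∀ (t x y : ℤ), y = x + m * g → ∀ S : Set Pt,
    (∀ p : Pt, t < p.1 → p.1 ≤ t + k → |2 * ((p.2 : ℝ) - x) - ((p.1 : ℝ) - t)| ≤ 2 * (R * wd μ (2 * g) + 2) → p ∈ S) →
      (law μ).real {η | wu μ S η t x k y < Real.exp (-(b * EE μ (2 * g)))} ≤ ε := by
  obtain ⟨R, C', hR, hC', n₁, hv⟩ := vert_bd h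
  refine ⟨R, 3 * C' / ε, hR, by positivity, n₁, fun g hg m k hm1 hm3 hk t x y hy S hS => ?_⟩
  subst hk
  have h1 := (hv (2 * g) hg m (t, x) S hS hm1).2 (3 * C' / ε) (by positivity)
  have e1 : ((m * (2 * g) : ℕ) : ℤ) / 2 = m * g := by
    have : ((m * (2 * g) : ℕ) : ℤ) = 2 * (m * g) := by push_cast; ring
    rw [this]
    exact Int.mul_ediv_cancel_left _ (by norm_num)
  rw [e1] at h1
  have e2 : y - x = m * g := by rw [hy]; ring
  have h2 : (law μ).real {η | wu μ S η t x (m * (2 * g)) y < Real.exp (-(3 * C' / ε * EE μ (2 * g)))} ≤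
      m * C' / (3 * C' / ε) := by
    unfold wu
    rw [e2]
    exact h1
  refine h2.trans ?_
  have hm : (m : ℝ) ≤ 3 := by exact_mod_cast hm3
  rw [div_le_iff₀ (by positivity)]
  have h3 : ε * (3 * C' / ε) = 3 * C' := by field_simp
  rw [h3]
  exact mul_le_mul_of_nonneg_right hm hC'.le

/-- THE TYPICAL EVENT IS TYPICAL. -/
theorem ty_prob (h : In μ c C n₀) (hD : Pool.Agent.W_7d29a1_X50.Dj μ) {ε R₁ : ℝ} (hε : 0 < ε) (hR₁ : 0 ≤ R₁) :
    ∃ R b b' b'' A : ℝ, 0 ≤ R ∧ 0 < b' ∧ 0 < b'' ∧ 1 ≤ A ∧ 1 ≤ b ∧ C + b + 2 * b' + 1 ≤ c * A / 2 ∧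
      ∃ n₁ : ℕ, ∀ g n : ℕ, n₁ ≤ g → 6 * g ≤ n →
      ∀ (y0 D F G : ℤ) (I : Finset ℤ), A * wd μ (2 * g) ≤ D → (D : ℝ) ≤ A * wd μ (2 * g) + 1 →
      R * wd μ (2 * g) + 3 ≤ F → (F : ℝ) ≤ R * wd μ (2 * g) + 4 → 0 ≤ G → (G : ℝ) ≤ R₁ * wd μ (2 * g) + 2 →
      (∀ y ∈ I, |(y : ℝ) - y0| ≤ A * wd μ (2 * g) / 2) →
      (law μ).real (Ty μ n g y0 D F G I (Real.exp ((b - c * A / 2) * EE μ (2 * g))) (Real.exp (-(b' * EE μ (2 * g))))
        (Real.exp (-(b'' * EE μ (2 * g)))))ᶜ ≤ ε := by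
  have hc0 := h.c0
  have hC1 := h.C1
  obtain ⟨b, hb1, n₁, htt⟩ := TT_bd h (ε := ε / 8) (by positivity)
  obtain ⟨R, b', hR, hb', n₂, hvv⟩ := vert' h (ε := ε / 8) (by positivity)
  obtain ⟨A, hAd⟩ : ∃ A : ℝ, A = 1 + 2 * (C + b + 2 * b' + 1) / c := ⟨_, rfl⟩
  have hA1 : 1 ≤ A := by
    rw [hAd]
    have : 0 ≤ 2 * (C + b + 2 * b' + 1) / c := by positivity
    linarith
  have hcA : C + b + 2 * b' + 1 ≤ c * A / 2 := by
    rw [hAd]
    have : c * (2 * (C + b + 2 * b' + 1) / c) = 2 * (C + b + 2 * b' + 1) := by field_simp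
    nlinarith
  obtain ⟨b'', hb'', n₃, hff⟩ := far_bd h hD (B := 2 * A + R + R₁ + 8) (by linarith) (ε := ε / 8) (by positivity)
  obtain ⟨n₄, hw⟩ := (tendsto_atTop.1 (wd_tendsto h) 1).exists_forall_of_atTop
  refine ⟨R, b, b', b'', A, hR, hb', hb'', hA1, hb1, hcA, n₁ + n₂ + n₃ + n₄ + 1,
    fun g n hg hn y0 D F G I hD1 hD2 hF1 hF2 hG0 hG1 hI => ?_⟩
  have hg1 : n₁ ≤ 2 * g := by omega
  have hg2 : n₂ ≤ 2 * g := by omega
  have hg3 : n₃ ≤ 2 * g := by omega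
  have hw1 : 1 ≤ wd μ (2 * g) := hw (2 * g) (by omega)
  obtain ⟨w, hwd⟩ : ∃ w : ℝ, w = wd μ (2 * g) := ⟨_, rfl⟩
  obtain ⟨E, hEd⟩ : ∃ E : ℝ, E = EE μ (2 * g) := ⟨_, rfl⟩
  have hE : 0 < E := by rw [hEd]; exact EE_pos _
  have htt' := htt (2 * g) hg1
  have hvv' := hvv g hg2
  have hff' := hff (2 * g) hg3
  rw [← hwd, ← hEd] at htt'
  rw [← hwd, ← hEd] at hvv'
  rw [← hwd, ← hEd] at hff'
  rw [← hwd] at hD1 hD2 hF1 hF2 hG1 hI hw1
  rw [← hEd]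
  have hw0 : 0 < w := by linarith
  -- the tilt
  obtain ⟨th, hth⟩ : ∃ th : ℝ, th = c * E / w := ⟨_, rfl⟩
  have hth0 : 0 < th := by rw [hth]; positivity
  have hthw : th * w = c * E := by rw [hth, div_mul_cancel₀ _ hw0.ne']
  have hDr0 : (0 : ℝ) ≤ D := le_trans (by positivity) hD1
  have hD0 : 0 ≤ D := by exact_mod_cast hDr0
  -- far ends
  have hfar : ∀ (σ : ℝ), |σ| = 1 → ∀ (S : Set Pt) (t x : ℤ) (k : ℕ), k ≤ 4 * (2 * g) →
      (∀ y ∈ I, (D : ℝ) - A * w / 2 ≤ σ * ((y : ℝ) - x - 1 / 2 * k)) →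
      (law μ).real {η | ¬ ∑ y ∈ I, wu μ S η t x k y ≤ Real.exp ((b - c * A / 2) * E)} ≤ ε / 8 := by
    intro σ hσ S t x k hk hy
    have h1 := htt' k hk (σ * th) (by rw [abs_mul, hσ, one_mul, abs_of_pos hth0, hthw]) (t, x)
    refine (measureReal_mono (fun η hη => ?_) (measure_ne_top _ _)).trans h1
    rw [Set.mem_ofPred_eq] at hη ⊢
    by_contra hcon
    rw [not_lt] at hcon
    apply hη
    have h2 := sum_wu_le (μ := μ) (σ * th) S η t x k I (τ := c * A / 2 * E) (fun y hyI => by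
      have h3 := mul_le_mul_of_nonneg_left (hy y hyI) hth0.le
      have h4 : th * (A * w - A * w / 2) ≤ th * ((D : ℝ) - A * w / 2) :=
        mul_le_mul_of_nonneg_left (by linarith) hth0.le
      have h5 : th * (A * w - A * w / 2) = c * A / 2 * E := by
        have : th * (A * w - A * w / 2) = (th * w) * A / 2 := by ring
        rw [this, hthw]
        ring
      have h6 : σ * th * ((y : ℝ) - x - 1 / 2 * k) = th * (σ * ((y : ℝ) - x - 1 / 2 * k)) := by ring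
      rw [h6]
      linarith)
    refine h2.trans ?_
    calc _ ≤ Real.exp (b * E) * Real.exp (-(c * A / 2 * E)) := mul_le_mul_of_nonneg_right hcon (Real.exp_pos _).le
      _ = Real.exp ((b - c * A / 2) * E) := by rw [← Real.exp_add]; congr 1; ring
  have hF0 : (3 : ℝ) ≤ F := by
    have : 0 ≤ R * w := by positivity
    linarith
  -- the seven events
  have p1 : (law μ).real {η | ¬ ∑ y ∈ I, wu μ Set.univ η ((n : ℤ) - 2 * g) (y0 - g + D) (2 * g) y ≤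
      Real.exp ((b - c * A / 2) * E)} ≤ ε / 8 :=
    hfar (-1) (by norm_num) _ _ _ _ (by omega) fun y hy => by
      have h1 := abs_le.1 (hI y hy)
      push_cast
      linarith
  have p2 : (law μ).real {η | ¬ ∑ y ∈ I, wu μ (Qg n g y0 D F) η ((n : ℤ) - 4 * g) (y0 - 2 * g + D) (2 * g + 2 * g) y ≤
      Real.exp ((b - c * A / 2) * E)} ≤ ε / 8 :=
    hfar (-1) (by norm_num) _ _ _ _ (by omega) fun y hy => by
      have h1 := abs_le.1 (hI y hy)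
      push_cast
      linarith
  have p3 : (law μ).real {η | ¬ ∑ y ∈ I, wu μ (Qg n g y0 D F) η ((n : ℤ) - 6 * g) (y0 - 3 * g - D)
      (2 * g + (2 * g + 2 * g)) y ≤ Real.exp ((b - c * A / 2) * E)} ≤ ε / 8 :=
    hfar 1 (by norm_num) _ _ _ _ (by omega) fun y hy => by
      have h1 := abs_le.1 (hI y hy)
      push_cast
      linarith
  have p4 : (law μ).real {η | ¬ Real.exp (-(b' * E)) ≤
      wu μ Set.univ η ((n : ℤ) - 2 * g) (y0 - g + D) (2 * g) (y0 + D)} ≤ ε / 8 := by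
    simp only [not_le]
    exact hvv' 1 (2 * g) le_rfl (by norm_num) (by ring) _ _ _ (by push_cast; ring) _ fun p _ _ _ => trivial
  have hline : ∀ p : Pt, (n : ℤ) - 4 * g < p.1 → |2 * ((p.2 : ℝ) - ((y0 - 2 * g + D : ℤ) : ℝ)) -
      ((p.1 : ℝ) - (((n : ℤ) - 4 * g : ℤ) : ℝ))| ≤ 2 * (R * w + 2) → p.2 ≤ ln n g y0 D F p.1 := by
    intro p _ hp
    have h1 := (abs_le.1 hp).2
    have h2 : 2 * (p.2 : ℝ) ≤ ((2 * (y0 - 2 * g + D + F) + (p.1 - (n - 4 * g)) - 2 : ℤ) : ℝ) := by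
      push_cast at h1 ⊢
      linarith
    have h3 : 2 * p.2 ≤ 2 * (y0 - 2 * g + D + F) + (p.1 - (n - 4 * g)) - 2 := by exact_mod_cast h2
    unfold ln
    omega
  have p5 : (law μ).real {η | ¬ Real.exp (-(b' * E)) ≤
      wu μ (Lw (ln n g y0 D F)) η ((n : ℤ) - 4 * g) (y0 - 2 * g + D) (2 * g) (y0 - g + D)} ≤ ε / 8 := by
    simp only [not_le]
    exact hvv' 1 (2 * g) le_rfl (by norm_num) (by ring) _ _ _ (by push_cast; ring) _ fun p h1 _ h3 => hline p h1 h3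
  have p6 : (law μ).real {η | ¬ Real.exp (-(b' * E)) ≤
      wu μ (Qg n g y0 D F) η ((n : ℤ) - 6 * g) (y0 - 3 * g - D) (2 * g + (2 * g + 2 * g)) (y0 - D)} ≤ ε / 8 := by
    simp only [not_le]
    refine hvv' 3 (2 * g + (2 * g + 2 * g)) (by norm_num) le_rfl (by ring) _ _ _ (by push_cast; ring) _ fun p h1 _ h3 => ?_
    by_cases h4 : p.1 ≤ (n : ℤ) - 4 * g
    · exact Or.inl h4
    · refine Or.inr (Or.inr ?_)
      have h5 := (abs_le.1 h3).2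
      have h2 : 2 * (p.2 : ℝ) ≤ ((2 * (y0 - 2 * g - D + F) + (p.1 - (n - 4 * g)) - 2 : ℤ) : ℝ) := by
        push_cast at h5 ⊢
        linarith
      have h6 : 2 * p.2 ≤ 2 * (y0 - 2 * g - D + F) + (p.1 - (n - 4 * g)) - 2 := by exact_mod_cast h2
      unfold ln
      omega
  have p7 : (law μ).real {η | ¬ Real.exp (-(b'' * E)) ≤
      wu μ Set.univ η ((n : ℤ) - 6 * g) (y0 - 3 * g - D) (2 * g) (y0 - 2 * g + D + F + G)} ≤ ε / 8 := by
    have hFi : (0 : ℤ) ≤ F := by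
      have : (0 : ℝ) ≤ F := by linarith
      exact_mod_cast this
    have hGr : (0 : ℝ) ≤ G := by exact_mod_cast hG0
    obtain ⟨h0, h1, h2⟩ := hff' (g + 2 * D + F + G) (by
      push_cast
      have e : (g : ℝ) + 2 * D + F + G - 2 * g / 2 = 2 * D + F + G := by ring
      rw [e, abs_of_nonneg (by linarith)]
      nlinarith)
    refine (measureReal_mono (fun η hη => ?_) (measure_ne_top _ _)).trans (h2 ((n : ℤ) - 6 * g, y0 - 3 * g - D))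
    rw [Set.mem_ofPred_eq] at hη ⊢
    rw [not_le] at hη
    have e2 : y0 - 2 * g + D + F + G - (y0 - 3 * g - D) = g + 2 * D + F + G := by ring
    unfold wu at hη
    rw [e2] at hη
    have hpos : 0 < WR μ 0 Set.univ η ((n : ℤ) - 6 * g, y0 - 3 * g - D) (2 * g) (g + 2 * D + F + G) :=
      W_pos (μ := μ) (s := 0) η _ h0 h1
    have h3 := Real.log_lt_log hpos hη
    rw [Real.log_exp] at h3
    show b'' * E ≤ -Real.log (WR μ 0 Set.univ η ((n : ℤ) - 6 * g, y0 - 3 * g - D) (2 * g) (g + 2 * D + F + G))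
    linarith
  -- the union
  have hsub : (Ty μ n g y0 D F G I (Real.exp ((b - c * A / 2) * E)) (Real.exp (-(b' * E)))
      (Real.exp (-(b'' * E))))ᶜ ⊆
      (({η | ¬ ∑ y ∈ I, wu μ Set.univ η ((n : ℤ) - 2 * g) (y0 - g + D) (2 * g) y ≤ Real.exp ((b - c * A / 2) * E)} ∪
      {η | ¬ ∑ y ∈ I, wu μ (Qg n g y0 D F) η ((n : ℤ) - 4 * g) (y0 - 2 * g + D) (2 * g + 2 * g) y ≤
        Real.exp ((b - c * A / 2) * E)}) ∪
      ({η | ¬ ∑ y ∈ I, wu μ (Qg n g y0 D F) η ((n : ℤ) - 6 * g) (y0 - 3 * g - D) (2 * g + (2 * g + 2 * g)) y ≤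
        Real.exp ((b - c * A / 2) * E)} ∪
      {η | ¬ Real.exp (-(b' * E)) ≤ wu μ Set.univ η ((n : ℤ) - 2 * g) (y0 - g + D) (2 * g) (y0 + D)})) ∪
      (({η | ¬ Real.exp (-(b' * E)) ≤
        wu μ (Lw (ln n g y0 D F)) η ((n : ℤ) - 4 * g) (y0 - 2 * g + D) (2 * g) (y0 - g + D)} ∪
      {η | ¬ Real.exp (-(b' * E)) ≤
        wu μ (Qg n g y0 D F) η ((n : ℤ) - 6 * g) (y0 - 3 * g - D) (2 * g + (2 * g + 2 * g)) (y0 - D)}) ∪
      {η | ¬ Real.exp (-(b'' * E)) ≤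
        wu μ Set.univ η ((n : ℤ) - 6 * g) (y0 - 3 * g - D) (2 * g) (y0 - 2 * g + D + F + G)}) := by
    intro η hη
    by_contra hcon
    simp only [Set.mem_union, Set.mem_ofPred_eq, not_or, not_not] at hcon
    exact hη ⟨⟨hcon.1.1.1, hcon.1.1.2, hcon.1.2.1⟩, hcon.1.2.2, hcon.2.1.1, hcon.2.1.2, hcon.2.2⟩
  refine (measureReal_mono hsub (measure_ne_top _ _)).trans ?_
  have hu := ee_union (ee_union (ee_union p1 p2) (ee_union p3 p4)) (ee_union (ee_union p5 p6) p7)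
  refine hu.trans ?_
  linarith

end

end Pool.Agent.W_7d29a1_59E
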