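import Mathlib

/-!
MP_7d29a1_pr: the end point of the polymer is spread at the scale `wd μ n`. Many independent lucky events: one of them is
successful.
-/

namespace Pool.Agent.W_7d29a1_59E

open MeasureTheory ProbabilityTheory Filter Topology

noncomputable section

/-- Pairwise independent lucky events `L i` of probability at least `p`, each of them spoiled with conditional probability at
most `δ`: with high probability one of them happens and is not spoiled. -/
theorem luck_count {Ω : Type*} [MeasurableSpace Ω] {P : Measure Ω} [IsProbabilityMeasure P] {k : ℕ} (hk : 1 ≤ k)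
    {L B : ℕ → Set Ω} (hL : ∀ i, MeasurableSet (L i)) (hB : ∀ i, MeasurableSet (B i))
    (hi : ∀ i j, i < k → j < k → i ≠ j → P.real (L i ∩ L j) = P.real (L i) * P.real (L j)) {p δ : ℝ} (hp : 0 < p)
    (hpL : ∀ i, i < k → p ≤ P.real (L i)) (hδ : ∀ i, i < k → P.real (L i ∩ B i) ≤ δ * P.real (L i)) :
    P.real {x | ∀ i, i < k → x ∈ L i → x ∈ B i} ≤ 4 / (p * k) + 2 * δ := by
  classical
  obtain ⟨f, hf⟩ : ∃ f : ℕ → Ω → ℝ, f = fun i => (L i).indicator fun _ => (1 : ℝ) := ⟨_, rfl⟩
  obtain ⟨g, hg⟩ : ∃ g : ℕ → Ω → ℝ, g = fun i => (L i ∩ B i).indicator fun _ => (1 : ℝ) := ⟨_, rfl⟩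
  obtain ⟨s, hs⟩ : ∃ s : ℝ, s = ∑ i ∈ Finset.range k, P.real (L i) := ⟨_, rfl⟩
  have hk0 : (0 : ℝ) < k := by exact_mod_cast hk
  have hs1 : p * k ≤ s := by
    rw [hs]
    have h1 : ∑ _i ∈ Finset.range k, p ≤ ∑ i ∈ Finset.range k, P.real (L i) :=
      Finset.sum_le_sum fun i hi' => hpL i (Finset.mem_range.1 hi')
    rw [Finset.sum_const, Finset.card_range, nsmul_eq_mul] at h1
    linarith
  have hs0 : 0 < s := lt_of_lt_of_le (by positivity) hs1
  have hint : ∀ {A : Set Ω}, MeasurableSet A → Integrable (A.indicator fun _ => (1 : ℝ)) P := fun hA =>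
    (integrable_const (1 : ℝ)).indicator hA
  have hI : ∀ {A : Set Ω}, MeasurableSet A → ∫ x, A.indicator (fun _ => (1 : ℝ)) x ∂P = P.real A := by
    intro A hA
    rw [integral_indicator hA]
    simp [Measure.real]
  have hfi : ∀ i, Integrable (f i) P := fun i => by rw [hf]; exact hint (hL i)
  have hgi : ∀ i, Integrable (g i) P := fun i => by rw [hg]; exact hint ((hL i).inter (hB i))
  have hff : ∀ i j, Integrable (fun x => f i x * f j x) P := by
    intro i j
    have h1 : (fun x => f i x * f j x) = (L i ∩ L j).indicator fun _ => (1 : ℝ) := by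
      funext x
      rw [hf]
      simp only
      by_cases h2 : x ∈ L i <;> by_cases h3 : x ∈ L j <;> simp [h2, h3]
    rw [h1]
    exact hint ((hL i).inter (hL j))
  have hffI : ∀ i j, ∫ x, f i x * f j x ∂P = P.real (L i ∩ L j) := by
    intro i j
    have h1 : (fun x => f i x * f j x) = (L i ∩ L j).indicator fun _ => (1 : ℝ) := by
      funext x
      rw [hf]
      simp only
      by_cases h2 : x ∈ L i <;> by_cases h3 : x ∈ L j <;> simp [h2, h3]
    rw [h1]
    exact hI ((hL i).inter (hL j))
  have hfI : ∀ i, ∫ x, f i x ∂P = P.real (L i) := fun i => by rw [hf]; exact hI (hL i)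
  have hgI : ∀ i, ∫ x, g i x ∂P = P.real (L i ∩ B i) := fun i => by rw [hg]; exact hI ((hL i).inter (hB i))
  -- the variance of the number of lucky events
  obtain ⟨F, hF⟩ : ∃ F : Ω → ℝ, F = fun x => ∑ i ∈ Finset.range k, f i x := ⟨_, rfl⟩
  obtain ⟨H, hH⟩ : ∃ H : Ω → ℝ, H = fun x => ∑ i ∈ Finset.range k, g i x := ⟨_, rfl⟩
  have hFi : Integrable F P := by rw [hF]; exact integrable_finsetSum _ fun i _ => hfi i
  have hFI : ∫ x, F x ∂P = s := by
    rw [hF, hs, integral_finsetSum _ fun i _ => hfi i]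
    exact Finset.sum_congr rfl fun i _ => hfI i
  have hF2i : Integrable (fun x => F x ^ 2) P := by
    have h1 : (fun x => F x ^ 2) = fun x => ∑ i ∈ Finset.range k, ∑ j ∈ Finset.range k, f i x * f j x := by
      funext x
      rw [hF, sq, Finset.sum_mul_sum]
    rw [h1]
    exact integrable_finsetSum _ fun i _ => integrable_finsetSum _ fun j _ => hff i j
  have hF2 : ∫ x, F x ^ 2 ∂P ≤ s ^ 2 + s := by
    have h1 : (fun x => F x ^ 2) = fun x => ∑ i ∈ Finset.range k, ∑ j ∈ Finset.range k, f i x * f j x := by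
      funext x
      rw [hF, sq, Finset.sum_mul_sum]
    rw [h1, integral_finsetSum _ fun i _ => integrable_finsetSum _ fun j _ => hff i j]
    have h2 : ∀ i ∈ Finset.range k, ∫ x, ∑ j ∈ Finset.range k, f i x * f j x ∂P ≤
        P.real (L i) * s + P.real (L i) := by
      intro i hi'
      rw [integral_finsetSum _ fun j _ => hff i j]
      have h3 : ∀ j ∈ Finset.range k, ∫ x, f i x * f j x ∂P ≤
          P.real (L i) * P.real (L j) + if j = i then P.real (L i) else 0 := by
        intro j hj
        rw [hffI]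
        by_cases h4 : j = i
        · rw [if_pos h4, h4, Set.inter_self]
          have : 0 ≤ P.real (L i) * P.real (L i) := mul_nonneg measureReal_nonneg measureReal_nonneg
          linarith
        · rw [if_neg h4, add_zero, hi i j (Finset.mem_range.1 hi') (Finset.mem_range.1 hj) (Ne.symm h4)]
      refine (Finset.sum_le_sum h3).trans (le_of_eq ?_)
      rw [Finset.sum_add_distrib, ← Finset.mul_sum, ← hs, Finset.sum_ite_eq' (Finset.range k) i, if_pos hi']
    refine (Finset.sum_le_sum h2).trans (le_of_eq ?_)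
    rw [Finset.sum_add_distrib, ← Finset.sum_mul, ← hs]
    ring
  have hvar : ∫ x, (F x - s) ^ 2 ∂P ≤ s := by
    have h1 : (fun x => (F x - s) ^ 2) = fun x => F x ^ 2 - 2 * s * F x + s ^ 2 := by
      funext x
      ring
    have hi1 : Integrable (fun x => 2 * s * F x) P := hFi.const_mul _
    have hi2 : Integrable (fun x => F x ^ 2 - 2 * s * F x) P := hF2i.sub hi1
    rw [h1, integral_add hi2 (integrable_const _), integral_sub hF2i hi1,
      integral_const_mul, hFI, integral_const, probReal_univ, one_smul]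
    nlinarith
  have hvi : Integrable (fun x => (F x - s) ^ 2) P := by
    have h1 : (fun x => (F x - s) ^ 2) = fun x => F x ^ 2 - 2 * s * F x + s ^ 2 := by
      funext x
      ring
    rw [h1]
    exact (hF2i.sub (hFi.const_mul _)).add (integrable_const _)
  -- Chebyshev and Markov
  have hc1 : P.real {x | (s / 2) ^ 2 ≤ (F x - s) ^ 2} ≤ 4 / (p * k) := by
    have h1 := mul_meas_ge_le_integral_of_nonneg (μ := P) (f := fun x => (F x - s) ^ 2)
      (ae_of_all _ fun x => sq_nonneg _) hvi ((s / 2) ^ 2)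
    have h2 : (s / 2) ^ 2 * P.real {x | (s / 2) ^ 2 ≤ (F x - s) ^ 2} ≤ s := by
      refine le_trans ?_ hvar
      simpa [Measure.real] using h1
    rw [le_div_iff₀ (by positivity)]
    have h3 : 0 ≤ P.real {x | (s / 2) ^ 2 ≤ (F x - s) ^ 2} := measureReal_nonneg
    have h4 : s * (s * P.real {x | (s / 2) ^ 2 ≤ (F x - s) ^ 2}) ≤ s * 4 := by nlinarith
    have h5 := le_of_mul_le_mul_left h4 hs0
    nlinarith
  have hH0 : ∀ x, 0 ≤ H x := fun x => by
    rw [hH]
    refine Finset.sum_nonneg fun i _ => ?_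
    rw [hg]
    exact Set.indicator_nonneg (fun _ _ => zero_le_one) x
  have hHi : Integrable H P := by rw [hH]; exact integrable_finsetSum _ fun i _ => hgi i
  have hHI : ∫ x, H x ∂P ≤ δ * s := by
    rw [hH, integral_finsetSum _ fun i _ => hgi i, hs, Finset.mul_sum]
    exact Finset.sum_le_sum fun i hi' => by
      rw [hgI]
      exact hδ i (Finset.mem_range.1 hi')
  have hc2 : P.real {x | s / 2 ≤ H x} ≤ 2 * δ := by
    have h1 := mul_meas_ge_le_integral_of_nonneg (μ := P) (f := H) (ae_of_all _ hH0) hHi (s / 2)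
    have h2 : s / 2 * P.real {x | s / 2 ≤ H x} ≤ δ * s := by
      refine le_trans ?_ hHI
      simpa [Measure.real] using h1
    have h3 : s * P.real {x | s / 2 ≤ H x} ≤ s * (2 * δ) := by linarith
    exact le_of_mul_le_mul_left h3 hs0
  -- the union
  have hsub : {x | ∀ i, i < k → x ∈ L i → x ∈ B i} ⊆ {x | (s / 2) ^ 2 ≤ (F x - s) ^ 2} ∪ {x | s / 2 ≤ H x} := by
    intro x hx
    rw [Set.mem_ofPred_eq] at hx
    have h1 : F x = H x := by
      rw [hF, hH]
      refine Finset.sum_congr rfl fun i hi' => ?_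
      rw [hf, hg]
      simp only
      by_cases h2 : x ∈ L i
      · have h3 := hx i (Finset.mem_range.1 hi') h2
        rw [Set.indicator_of_mem h2, Set.indicator_of_mem (show x ∈ L i ∩ B i from ⟨h2, h3⟩)]
      · rw [Set.indicator_of_notMem h2, Set.indicator_of_notMem fun h3 => h2 h3.1]
    rcases le_or_gt (s / 2) (H x) with h4 | h4
    · exact Or.inr h4
    · left
      rw [Set.mem_ofPred_eq, h1]
      nlinarith
  refine (measureReal_mono hsub (measure_ne_top _ _)).trans ((measureReal_union_le _ _).trans ?_)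
  exact add_le_add hc1 hc2

end

end Pool.Agent.W_7d29a1_59E
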