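import Pool.Agent.W_7d29a1_59E.Ea
import Pool.Agent.W_7d29a1_SR.Trans
import Pool.Agent.W_7d29a1_SR.MidS

/-!
MP_7d29a1_pr: the end point of the polymer is spread at the scale `w_n`: the transfer to the polymer of the problem.
-/

namespace Pool.Agent.W_7d29a1_59E

open MeasureTheory ProbabilityTheory Filter Topology
open Pool.Agent.W_7d29a1_F Pool.Agent.W_7d29a1_g Pool.Agent.W_7d29a1_SR Pool.Agent.W_7d29a1_SL

/-- The ends in the ball of radius `r`. -/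
noncomputable def Ib (n : ℕ) (r : ℝ) : Finset ℤ := by
  classical
  exact (Finset.Icc (0 : ℤ) n).filter fun y => |2 * (y : ℝ) - n| ≤ r

theorem mem_Ib {n : ℕ} {r : ℝ} {y : ℤ} : y ∈ Ib n r ↔ (0 ≤ y ∧ y ≤ n) ∧ |2 * (y : ℝ) - n| ≤ r := by
  unfold Ib
  rw [Finset.mem_filter, Finset.mem_Icc]

private lemma eh_pos (s : ℕ → Bool) (i : ℕ) :
    Pool.Agent.W_7d29a1_h47.pos s i = 2 * TA_q s i - i := by
  induction i with
  | zero => simp [Pool.Agent.W_7d29a1_h47.pos, TA_q_zero]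
  | succ i ih =>
    have h1 : Pool.Agent.W_7d29a1_h47.pos s (i + 1) =
        Pool.Agent.W_7d29a1_h47.pos s i + Pool.Agent.W_7d29a1_h47.stp (s i) := by
      unfold Pool.Agent.W_7d29a1_h47.pos
      rw [Finset.sum_range_succ]
    rw [h1, ih, TA_q_succ]
    unfold Pool.Agent.W_7d29a1_h47.stp
    push_cast
    split_ifs <;> ring

private lemma eh_pw (β : ℝ) (ω : ℕ × ℤ → ℝ) {n : ℕ} (s : Fin n → Bool) :
    TA_pw Set.univ (toF β ω) 0 n (Pool.Agent.W_7d29a1_h47.ext s) =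
      Real.exp (β * Pool.Agent.W_7d29a1_h47.energy ω s) := by
  unfold TA_pw
  have e0 : ∀ i : ℕ, (((0 : Pt).1 + ((i : ℤ) + 1), (0 : Pt).2 + TA_q (Pool.Agent.W_7d29a1_h47.ext s) (i + 1)) : Pt) =
      ((i : ℤ) + 1, TA_q (Pool.Agent.W_7d29a1_h47.ext s) (i + 1)) := by
    intro i
    simp
  simp only [e0]
  have h1 : ∀ i ∈ Finset.range n, Set.univ.indicator (fun p => Real.exp (toF β ω p))
      (((i : ℤ) + 1, TA_q (Pool.Agent.W_7d29a1_h47.ext s) (i + 1)) : Pt) =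
      Real.exp (β * ω (i + 1, Pool.Agent.W_7d29a1_h47.pos (Pool.Agent.W_7d29a1_h47.ext s) (i + 1))) := by
    intro i _
    rw [Set.indicator_univ]
    congr 1
    unfold toF
    rw [if_pos (by simp only; omega), eh_pos]
    congr 2
  rw [Finset.prod_congr rfl h1, ← Real.exp_sum]
  congr 1
  unfold Pool.Agent.W_7d29a1_h47.energy
  rw [Finset.sum_range fun i => _, Finset.mul_sum]
  refine Finset.sum_congr rfl fun i _ => ?_
  rw [Pool.Agent.W_7d29a1_h47.walk_eq s (by omega)]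

private lemma eh_V (μ : Measure ℝ) [IsProbabilityMeasure μ] (η : Env) (n : ℕ) :
    Real.exp (V μ 0 η 0 n) = Real.exp (-(n * lam μ 0)) * ∑ y ∈ Finset.Icc (0 : ℤ) n, Zr Set.univ η 0 n y := by
  have h1 : WS μ 0 η 0 n (Finset.Icc (0 : ℤ) n) = Real.exp (-(n * lam μ 0)) *
      ∑ y ∈ Finset.Icc (0 : ℤ) n, Zr Set.univ η 0 n y := by
    rw [Finset.mul_sum]
    unfold WS W
    refine Finset.sum_congr rfl fun y _ => ?_
    rw [WR_zero']
  have h2 : 0 < ∑ y ∈ Finset.Icc (0 : ℤ) n, Zr Set.univ η 0 n y := by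
    refine Finset.sum_pos' (fun y _ => Zr_nonneg _ _ _ _ _) ⟨0, ?_, Zr_pos η 0 le_rfl (by positivity)⟩
    rw [Finset.mem_Icc]
    exact ⟨le_rfl, by positivity⟩
  unfold V
  rw [h1, Real.exp_log (by positivity)]

private lemma eh_sum (β : ℝ) (ω : ℕ × ℤ → ℝ) (n : ℕ) (S : Finset ℤ) :
    ∑ y ∈ S, Zr Set.univ (toF β ω) 0 n y = ∑ s : Fin n → Bool,
      if TA_q (Pool.Agent.W_7d29a1_h47.ext s) n ∈ S then Real.exp (β * Pool.Agent.W_7d29a1_h47.energy ω s) else 0 := by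
  classical
  simp only [TA_Zr]
  rw [Finset.sum_comm, Pool.Agent.W_7d29a1_h47.sum_T_eq]
  refine Finset.sum_congr rfl fun s _ => ?_
  rw [Finset.sum_ite_eq, eh_pw]

/-- The probability that the end point is in the ball of radius `r`. -/
theorem end_toF (μ : Measure ℝ) [IsProbabilityMeasure μ] (β : ℝ) (ω : ℕ × ℤ → ℝ) (n : ℕ) (r : ℝ) :
    (∑ y ∈ Ib n r, wu μ Set.univ (toF β ω) 0 0 n y) / Real.exp (V μ 0 (toF β ω) (0, 0) n) =
      polP β ω n {s | |(Pool.Agent.W_7d29a1_h47.walk s n : ℝ)| ≤ r} := by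
  classical
  have hz : ((0, 0) : Pt) = 0 := rfl
  have h1 : ∑ y ∈ Ib n r, wu μ Set.univ (toF β ω) 0 0 n y = Real.exp (-(n * lam μ 0)) *
      ∑ y ∈ Ib n r, Zr Set.univ (toF β ω) 0 n y := by
    rw [Finset.mul_sum]
    unfold wu
    refine Finset.sum_congr rfl fun y _ => ?_
    rw [WR_zero', sub_zero, hz]
  rw [h1, hz, eh_V, mul_div_mul_left _ _ (Real.exp_pos _).ne', eh_sum β ω n, eh_sum β ω n]
  unfold polP Pool.Agent.W_7d29a1_h47.polE
  have hq : ∀ s : Fin n → Bool, TA_q (Pool.Agent.W_7d29a1_h47.ext s) n ∈ Finset.Icc (0 : ℤ) n := fun s =>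
    Finset.mem_Icc.2 ⟨TA_q_nonneg _ n, TA_q_le _ n⟩
  congr 1
  · refine Finset.sum_congr rfl fun s _ => ?_
    have h2 : TA_q (Pool.Agent.W_7d29a1_h47.ext s) n ∈ Ib n r ↔
        s ∈ {s : Fin n → Bool | |(Pool.Agent.W_7d29a1_h47.walk s n : ℝ)| ≤ r} := by
      rw [mem_Ib, Set.mem_ofPred_eq, Pool.Agent.W_7d29a1_h47.walk_eq s le_rfl, eh_pos]
      push_cast
      exact ⟨fun h => h.2, fun h => ⟨Finset.mem_Icc.1 (hq s), h⟩⟩
    by_cases h : s ∈ {s : Fin n → Bool | |(Pool.Agent.W_7d29a1_h47.walk s n : ℝ)| ≤ r}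
    · rw [if_pos (h2.2 h)]
      simp only [if_pos h, one_mul]
    · rw [if_neg fun h' => h (h2.1 h')]
      simp only [if_neg h, zero_mul]
  · refine Finset.sum_congr rfl fun s _ => ?_
    rw [if_pos (hq s)]

end Pool.Agent.W_7d29a1_59E
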